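import Pool.Agent.V7H44.KT.Defs

/-!
# Kato's conjecture in all degrees: the criteria
-/

set_option autoImplicit false

namespace Pool.Agent.V7H44.KT

open Module Pool.Agent.Y143 Pool.Agent.Helper60K9.KL Pool.Agent.X302.MW

universe u v

variable {Ω : Type u} [Field Ω] [CharZero Ω] {Γ : Type} {n q : ℕ}

lemma nInj_iff (X : SpecialFibre.{u, v} Ω Γ n q) (a k : ℕ) :
    NInj X.diff X.tot ((a : ℤ) + 1) (((a + 1 + k : ℕ) : ℤ) - n) ↔ InjCrit X a k := by
  constructor
  · intro h y hy hG
    show (Pi.single (a + 1) (X.res a y) : X.C) ∈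
      X.coboundaries (-((a : ℤ) + 1)) ((k : ℤ) + 2 * (a + 1))
    have h1 : (Pi.single (a + 1) (X.res a y) : X.C) ∈
        Bd X.diff X.tot (-((a : ℤ) + 1)) (((a + 1 + k : ℕ) : ℤ) - n) := by
      apply h
      refine ⟨⟨?_, ?_⟩, ?_⟩
      · apply X.single_mem
        · have := inCol_neg_self (a + 1)
          rwa [show ((a + 1 : ℕ) : ℤ) = (a : ℤ) + 1 by push_cast; ring] at this
        · rw [show (n : ℤ) + (((a + 1 + k : ℕ) : ℤ) - n) - -((a : ℤ) + 1) + -((a : ℤ) + 1) -
            ((a + 1 : ℕ) : ℤ) = (k : ℤ) by push_cast; ring]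
          exact X.res_gr a _ _ hy
      · exact diff_single_neg_apply X a _ hG (X.res_res a y)
      · refine ⟨Pi.single a y, ?_, by rw [show (a : ℤ) + 1 - 1 = a by ring, diff_single_pos]⟩
        rw [show (a : ℤ) + 1 - 1 = a by ring]
        apply X.single_mem (inCol_self a)
        rwa [show (n : ℤ) + (((a + 1 + k : ℕ) : ℤ) - n - 1) - (a : ℤ) + a - a = (k : ℤ) by
          push_cast; ring]
    rwa [X.bd_eq, show (n : ℤ) + (((a + 1 + k : ℕ) : ℤ) - n) - -((a : ℤ) + 1) =
      (k : ℤ) + 2 * (a + 1) by push_cast; ring] at h1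
  · intro h
    refine nInj_of X a (a + 1 + k) fun y hy hG => ?_
    rw [show ((a + 1 + k : ℕ) : ℤ) - ((a : ℤ) + 1) = (k : ℤ) by push_cast; ring] at hy
    rw [show ((a + 1 + k : ℕ) : ℤ) + ((a : ℤ) + 1) = (k : ℤ) + 2 * (a + 1) by push_cast; ring]
    exact h y hy hG

lemma nSurj_iff (X : SpecialFibre.{u, v} Ω Γ n q) (a k : ℕ) :
    NSurj X.diff X.tot ((a : ℤ) + 1) (((a + 1 + k : ℕ) : ℤ) - n) ↔ SurjCrit X a k := by
  have hw : (n : ℤ) + (((a + 1 + k : ℕ) : ℤ) - n) - ((a : ℤ) + 1) = k := by push_cast; ring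
  constructor
  · intro h z hz
    have hz1 : z ∈ Zc X.diff X.tot ((a : ℤ) + 1) (((a + 1 + k : ℕ) : ℤ) - n) := by
      rw [X.zc_eq, hw]
      exact hz
    obtain ⟨c, hc, b, hb, hcb⟩ := Submodule.mem_sup.1 (h hz1)
    obtain ⟨y, hy, rfl⟩ := hb
    rw [show (a : ℤ) + 1 - 1 = a by ring] at hy hcb
    have hyE : y ∈ X.E₁ a k := X.mem_E₁_cast rfl (by push_cast; ring) hy
    have hya : y a ∈ X.gr a k := by
      have := (hyE a).1
      rwa [show (k : ℤ) + a - a = k by ring] at this
    refine ⟨y a, hya, ?_⟩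
    have hgc : X.gys a (c (a + 1)) = 0 := by
      have h2 : X.diff (-((a : ℤ) + 1)) c = 0 := hc.2
      have h3 := congrFun h2 a
      rw [X.diff_apply, show -((a : ℤ) + 1) + 1 = -(a : ℤ) by ring, X.cut_of (inCol_neg_self a),
        Pi.add_apply, X.gysC_apply] at h3
      cases a with
      | zero =>
        rw [X.resC_zero, zero_add] at h3
        exact h3
      | succ a =>
        have h4 : c a = 0 := by
          have h5 : c ∈ X.E₁ (-(((a + 1 : ℕ) : ℤ) + 1))
              ((n : ℤ) + (((a + 1 + 1 + k : ℕ) : ℤ) - n) - -(((a + 1 : ℕ) : ℤ) + 1)) := hc.1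
          refine (h5 a).2 fun hcol => ?_
          have h6 := hcol.1
          rw [abs_neg, abs_of_nonneg (by positivity)] at h6
          push_cast at h6
          omega
        rw [X.resC_succ, h4, map_zero, zero_add] at h3
        exact h3
    have e1 : z (a + 1) = c (a + 1) + X.diff a y (a + 1) := by
      rw [← hcb]
      rfl
    have e2 : X.diff (a : ℤ) y (a + 1) = X.res a (y a) + X.gys (a + 1) (y (a + 2)) := by
      rw [X.diff_apply, X.cut_of, Pi.add_apply, X.gysC_apply, X.resC_succ]
      exact inCol_succ_self a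
    rw [e1, e2, map_add, map_add, hgc, X.gys_gys, zero_add, add_zero]
  · intro h z hz
    rw [X.zc_eq, hw] at hz
    obtain ⟨x, hx, hG⟩ := h z hz
    have hsx : (Pi.single a x : X.C) ∈ X.E₁ a k := by
      apply X.single_mem (inCol_self a)
      rwa [show (k : ℤ) + a - a = k by ring]
    have hz1 : z ∈ X.E₁ ((a : ℤ) + 1) k := hz.1
    have hz2 : X.diff ((a : ℤ) + 1) z = 0 := hz.2
    have hdx : X.diff a (Pi.single a x) ∈ X.E₁ ((a : ℤ) + 1) k := by
      rw [diff_single_pos]
      apply X.single_mem (inCol_succ_self a)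
      rw [show (k : ℤ) + ((a : ℤ) + 1) - ((a + 1 : ℕ) : ℤ) = k by push_cast; ring]
      exact X.res_gr a _ _ hx
    refine Submodule.mem_sup.2 ⟨z - X.diff a (Pi.single a x), ⟨?_, ?_⟩, X.diff a (Pi.single a x),
      ?_, sub_add_cancel _ _⟩
    · have h1 : z - X.diff a (Pi.single a x) ∈ X.E₁ ((a : ℤ) + 1) k := Submodule.sub_mem _ hz1 hdx
      have h2 : z - X.diff a (Pi.single a x) ∈ X.tot ((a : ℤ) + 1) (((a + 1 + k : ℕ) : ℤ) - n) :=
        X.mem_E₁_cast rfl hw.symm h1
      rwa [← tot_neg X ((a : ℤ) + 1)] at h2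
    · show X.diff (-((a : ℤ) + 1)) (z - X.diff a (Pi.single a x)) = 0
      have hR : X.diff ((a : ℤ) + 1) (z - X.diff a (Pi.single a x)) = 0 := by
        rw [map_sub, hz2, diff_single_pos,
          show (a : ℤ) + 1 = ((a + 1 : ℕ) : ℤ) by push_cast; ring, diff_single_pos, X.res_res,
          Pi.single_zero, sub_zero]
      set w := z - X.diff a (Pi.single a x) with hwdef
      have hgw : X.gys a (w (a + 1)) = 0 := by
        rw [hwdef, diff_single_pos, Pi.sub_apply, Pi.single_eq_same, map_sub, hG, sub_self]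
      have hwE : w ∈ X.E₁ ((a : ℤ) + 1) k := Submodule.sub_mem _ hz1 hdx
      funext b
      by_cases hc : InColumn (-((a : ℤ) + 1) + 1) b
      · rw [X.diff_apply, X.cut_of hc]
        have hab : a ≤ b := by
          have := hc.1
          rw [show -((a : ℤ) + 1) + 1 = -(a : ℤ) by ring, abs_neg, Nat.abs_cast] at this
          exact_mod_cast this
        rcases Nat.eq_or_lt_of_le hab with rfl | hlt
        · rw [Pi.add_apply, X.gysC_apply, hgw, add_zero]
          cases a with
          | zero => rfl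
          | succ a =>
            rw [X.resC_succ]
            have h4 : w a = 0 := by
              refine (hwE a).2 fun hcol => ?_
              have h6 := hcol.1
              rw [abs_of_nonneg (by positivity)] at h6
              push_cast at h6
              omega
            rw [h4, map_zero]
            rfl
        · have hcb : InColumn ((a : ℤ) + 1 + 1) b := by
            refine ⟨?_, ?_⟩
            · rw [abs_of_nonneg (by positivity)]
              have h2 := hc.2
              have h3 : (a : ℤ) < b := by exact_mod_cast hlt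
              rw [show (b : ℤ) - (-((a : ℤ) + 1) + 1) = b + a by ring] at h2
              omega
            · have h2 := hc.2
              rw [show (b : ℤ) - (-((a : ℤ) + 1) + 1) = b + a by ring] at h2
              omega
          have h5 := congrFun hR b
          rw [X.diff_apply, X.cut_of hcb] at h5
          exact h5
      · rw [X.diff_apply, X.cut_of_not hc]
        rfl
    · refine ⟨Pi.single a x, ?_, by rw [show (a : ℤ) + 1 - 1 = a by ring]⟩
      rw [show (a : ℤ) + 1 - 1 = a by ring]
      exact X.mem_E₁_cast rfl (by push_cast; ring) hsx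

/-- **Injectivity** -/
theorem grInj_iff_crit (X : SemistableModel.{u, v} Ω Γ n q) (a k : ℕ) :
    GrInj X (a + 1 + k) (a + 1) ↔ InjCrit X.toSpecialFibre a k := by
  rw [grInj_iff, show ((a + 1 : ℕ) : ℤ) = (a : ℤ) + 1 by push_cast; ring, nInj_iff]

/-- **Surjectivity** -/
theorem grSurj_iff_crit (X : SemistableModel.{u, v} Ω Γ n q) (a k : ℕ) :
    GrSurj X (a + 1 + k) (a + 1) ↔ SurjCrit X.toSpecialFibre a k := by
  rw [grSurj_iff, show ((a + 1 : ℕ) : ℤ) = (a : ℤ) + 1 by push_cast; ring, nSurj_iff]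

section classes

variable {X : SemistableModel.{u, v} Ω Γ n q} (A : DivisorClasses X.toSpecialFibre)
include A

theorem katoAt_iff_crit {m : ℕ} (hm : m ≤ n) : KatoAt X m ↔ CritAt X.toSpecialFibre m := by
  rw [katoAt_iff]
  constructor
  · intro h
    refine ⟨?_, ?_⟩
    · rintro a k - rfl
      exact (grInj_iff_crit X a k).1 (h (a + 1) (by omega)).1
    · rintro - a k - rfl
      exact (grSurj_iff_crit X a k).1 (h (a + 1) (by omega)).2
  · rintro ⟨h1, h2⟩ e he
    rcases Nat.lt_or_ge m e with h | h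
    · exact grIso_triv X m e (Or.inl h)
    obtain ⟨a, rfl⟩ : ∃ a, e = a + 1 := ⟨e - 1, by omega⟩
    obtain ⟨k, rfl⟩ : ∃ k, m = a + 1 + k := ⟨m - (a + 1), by omega⟩
    have hI : GrInj X (a + 1 + k) (a + 1) := by
      rcases (show k = 0 ∨ k = 1 ∨ 2 ≤ k by omega) with rfl | rfl | hk
      · exact (grIso_top A (a + 1) (by omega)).1
      · exact grInj_one A (a + 2) (by omega)
      · exact (grInj_iff_crit X a k).2 (h1 a k hk rfl)
    refine ⟨hI, ?_⟩
    rcases Nat.lt_or_ge (a + 1 + k) n with hn | hn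
    · rcases Nat.eq_zero_or_pos k with rfl | hk
      · exact (grIso_top A (a + 1) (by omega)).2
      · exact (grSurj_iff_crit X a k).2 (h2 hn a k hk rfl)
    · obtain rfl : a + 1 + k = n := by omega
      exact ((grIso_middle (X := X) (a + 1)).2 hI).2

theorem kato_iff_crit : (∀ m, KatoAt X m) ↔ AllCrit X.toSpecialFibre := by
  constructor
  · intro h
    refine ⟨fun a k hk hn => ?_, fun a k hk hn => ?_⟩
    · exact ((katoAt_iff_crit A hn).1 (h (a + 1 + k))).1 a k hk rfl
    · exact ((katoAt_iff_crit A (by omega)).1 (h (a + 1 + k))).2 (by omega) a k hk rfl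
  · intro h
    have hlow : ∀ m, m ≤ n → KatoAt X m := by
      intro m hm
      refine (katoAt_iff_crit A hm).2 ⟨fun a k hk hmk => h.1 a k hk (by omega),
        fun hmn a k hk hmk => h.2 a k hk (by omega)⟩
    intro m
    rcases Nat.lt_or_ge n m with hm | hm
    · rcases Nat.lt_or_ge (2 * n) m with h2 | h2
      · exact katoAt_big m (by omega)
      · exact (katoAt_dual X m (2 * n - m) (by omega)).2 (hlow _ (by omega))
    · exact hlow m hm

end classes

end Pool.Agent.V7H44.KT
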