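import Pool.Agent.Helper8K9.KD.Stm

/-!
# Kato's conjecture in all degrees: definitions
-/

set_option autoImplicit false

namespace Pool.Agent.V7H44.KT

open Module Polynomial Pool.Agent.Y143 Pool.Agent.Helper60K9.KL Pool.Agent.Helper8K9.AV
  Pool.Agent.Helper8K9.KD

universe u v

variable {Ω : Type u} [Field Ω] [CharZero Ω] {Γ : Type} {n q : ℕ}

section Strata

variable (X : SpecialFibre.{u, v} Ω Γ n q)

/-- If `y` is in `H^k(Y^(a+1))` and the Gysin image of its restriction `ρ y` to `Y^(a+2)` vanishes,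
then `ρ y` is a coboundary in the column `-(a + 1)` of the weight spectral sequence. -/
def InjCrit (a k : ℕ) : Prop :=
  CobCrit (X.gr a k) (X.res a) (X.gys a) (inj X (a + 1))
    (X.coboundaries (-((a : ℤ) + 1)) ((k : ℤ) + 2 * (a + 1)))

/-- For every cocycle `z` of weight `k` in the column `a + 1` of the weight spectral sequence, with
component `z_0` in `H^k(Y^(a+2))`, there is a class `x` in `H^k(Y^(a+1))` such that `z_0` and the
restriction of `x` have the same Gysin image. -/
def SurjCrit (a k : ℕ) : Prop :=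
  ∀ z ∈ X.cocycles ((a : ℤ) + 1) k, ∃ x ∈ X.gr a k, X.gys a (z (a + 1)) = X.gys a (X.res a x)

/-- The criteria for all the strata, in the degrees where they are not always satisfied. -/
def AllCrit : Prop :=
  (∀ a k : ℕ, 2 ≤ k → a + 1 + k ≤ n → InjCrit X a k) ∧
    ∀ a k : ℕ, 1 ≤ k → a + 2 + k ≤ n → SurjCrit X a k

/-- The criteria for `H^m`. -/
def CritAt (m : ℕ) : Prop :=
  (∀ a k : ℕ, 2 ≤ k → a + 1 + k = m → InjCrit X a k) ∧
    (m < n → ∀ a k : ℕ, 1 ≤ k → a + 1 + k = m → SurjCrit X a k)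

/-- The form `B(x, L^s y)` on `H^k(Y^(a+2))`, `s = dim Y^(a+2) - k`. -/
def lowForm (a k : ℕ) : X.H (a + 1) →ₗ[Ω] X.H (a + 1) →ₗ[Ω] Ω := formL X (a + 1) (n - (a + 1 + k))

/-- The form `B(x, L^(s - 1) y)` on `H^(k+2)(Y^(a+1))`, `s - 1 = dim Y^(a+1) - (k + 2)`. -/
def highForm (a k : ℕ) : X.H a →ₗ[Ω] X.H a →ₗ[Ω] Ω := formL X a (n - (a + 2 + k))

/-- The classes in `H^k(Y^(a+2))` whose Gysin image in `H^(k+2)(Y^(a+1))` is primitive. -/
def primGysK (a k : ℕ) : Submodule Ω (X.H (a + 1)) :=
  X.gr (a + 1) k ⊓ (LinearMap.ker (X.lef a ^ (n - (a + 1 + k)))).comap (X.gys a)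

/-- The restrictions to `Y^(a+2)` of the classes in `H^k(Y^(a+1))` belong to a subspace `U` of the
cohomology of `Y^(a+2)` (for example `H^k(Y^(a+2))`) with simple spectrum: the form `lowForm` is
nondegenerate on `U`, and some operator `e` in the algebra generated by the given operators
(Frobenius and others) has the characteristic polynomial `P` and the adjoint `Q(e)` on `U`. -/
def ResSimple (a k : ℕ) (P Q : ℚ[X]) : Prop :=
  ImageSimple (X.gr a k) (X.res a) (lowForm X a k) (opsOf X (a + 1)) P Q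

/-- The primitive Gysin images in `H^(k+2)(Y^(a+1))` of the classes in `H^k(Y^(a+2))` belong to a
subspace `U` with simple spectrum. -/
def GysSimpleK (a k : ℕ) (P Q : ℚ[X]) : Prop :=
  ImageSimple (primGysK X a k) (X.gys a) (highForm X a k) (opsOf X a) P Q

/-- `H^2(Y^(a+1))` is spanned by the divisor classes and a stable subspace `T` whose restriction to
`Y^(a+2)` is orthogonal to that of the divisor classes and belongs to a subspace with simple
spectrum. -/
def TransSimpleL {X : SpecialFibre.{u, v} Ω Γ n q} (A : DivisorClasses X) (a : ℕ) (P Q : ℚ[X]) :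
    Prop :=
  SpanSimple (X.gr a 2) (A.A1 a) (opsOf X a) (X.res a) (lowForm X a 2) (opsOf X (a + 1)) P Q

/-- The condition on the restrictions from `H^k(Y^(a+1))` to `H^k(Y^(a+2))`: simple spectrum, or for
`k = 2` that `H^2(Y^(a+1))` is spanned by divisor classes and transcendental classes (for example by
divisor classes) the restrictions of which are nondegenerate, or have simple spectrum. -/
def ResGood {X : SpecialFibre.{u, v} Ω Γ n q} (A : DivisorClasses X) (a k : ℕ) (P Q : ℚ[X]) : Prop :=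
  ResSimple X a k P Q ∨ (k = 2 ∧ (TransNondeg A a ∨ TransSimpleL A a P Q))

/-- The condition on the Gysin maps from `H^k(Y^(a+2))` to `H^(k+2)(Y^(a+1))`: simple spectrum on the
primitive images, or `k = 1` and `NoObstruction` (for example `H^3(Y^(a+1))` comes from curves). -/
def GysGood (a k : ℕ) (P Q : ℚ[X]) : Prop :=
  GysSimpleK X a k P Q ∨ (k = 1 ∧ NoObstruction X a)

/-- The conditions for all strata and all degrees. -/
def AllGood {X : SpecialFibre.{u, v} Ω Γ n q} (A : DivisorClasses X)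
    (P Q P' Q' : ℕ → ℕ → ℚ[X]) : Prop :=
  (∀ a k : ℕ, 2 ≤ k → a + 1 + k ≤ n → ResGood A a k (P a k) (Q a k)) ∧
    ∀ a k : ℕ, 1 ≤ k → a + 2 + k ≤ n → GysGood X a k (P' a k) (Q' a k)

end Strata

/-- Every complex root `z` of `P` is of the form `g(y)`, where `y` is a root of one of the
polynomials `R j` and `g` is a polynomial with rational coefficients. -/
def GeneratedBy {J : Type} (R : J → ℚ[X]) (P : ℚ[X]) : Prop :=
  ∀ z : ℂ, aeval z P = 0 → ∃ (j : J) (y : ℂ) (g : ℚ[X]), aeval y (R j) = 0 ∧ aeval y g = z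

/-- For all `ℓ ≠ p` the conditions `AllGood` hold with polynomials independent of `ℓ`. -/
def AdicAllGood {n q p : ℕ} (F : AdicFamily.{v} n q p) (P Q P' Q' : ℕ → ℕ → ℚ[X]) : Prop :=
  ∀ (ℓ : ℕ) [Fact ℓ.Prime], ℓ ≠ p → AllGood (F.A ℓ) P Q P' Q'

/-- The polynomials `P a k` and `P' a k` with their conjugations `Q a k`, `Q' a k`; all their roots are
generated by the roots of the `R j`. -/
def AllGenerated {J : Type} (R : J → ℚ[X]) (P Q P' Q' : ℕ → ℕ → ℚ[X]) : Prop :=
  (∀ a k, IsConjugationPair (P a k) (Q a k) ∧ GeneratedBy R (P a k)) ∧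
    ∀ a k, IsConjugationPair (P' a k) (Q' a k) ∧ GeneratedBy R (P' a k)

end Pool.Agent.V7H44.KT
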