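import Pool.Agent.V7H44.KT.Suff

/-!
# Local conjugacy of the eigenvalues from the generators
-/

set_option autoImplicit false

namespace Pool.Agent.V7H44.KT

open Module Polynomial Pool.Agent.Y143 Pool.Agent.Helper60K9.KL Pool.Agent.X302.MW
  Pool.Agent.Helper8K9.AV Pool.Agent.Helper8K9.KD Pool.Agent.Helper11K9.Dens IntermediateField

universe u v

theorem locallyConjugate_of_generated {J : Type} {R S : J → ℚ[X]}
    (hRS : ∀ j, IsConjugationPair (R j) (S j)) {P Q : ℚ[X]} (hPQ : IsConjugationPair P Q)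
    (hG : GeneratedBy R P) {K : Type*} [Field K] [CharZero K]
    (hloc : ∀ j, LocallyConjugate K (R j) (S j)) : LocallyConjugate K P Q := by
  intro x hx
  rw [aeval_map_algebraMap] at hx ⊢
  have hP0 : P ≠ 0 := hPQ.1.ne_zero
  have hxint : IsIntegral ℚ x := IsAlgebraic.isIntegral ⟨P, hP0, hx⟩
  -- a complex root with the same minimal polynomial
  obtain ⟨z, hz⟩ : ∃ z : ℂ, aeval z (minpoly ℚ x) = 0 := by
    have hdeg : (minpoly ℚ x).degree ≠ 0 := (minpoly.degree_pos hxint).ne'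
    obtain ⟨z, hz⟩ := IsAlgClosed.exists_aeval_eq_zero ℂ (minpoly ℚ x) hdeg
    exact ⟨z, hz⟩
  have hzP : aeval z P = 0 := by
    obtain ⟨c, hc⟩ := minpoly.dvd ℚ x hx
    rw [hc, map_mul, hz, zero_mul]
  have hzmin : minpoly ℚ z = minpoly ℚ x :=
    (minpoly.eq_of_irreducible_of_monic (minpoly.irreducible hxint) hz (minpoly.monic hxint)).symm
  obtain ⟨j, y, g, hy, hgy⟩ := hG z hzP
  have hyint : IsIntegral ℚ y := IsAlgebraic.isIntegral ⟨R j, (hRS j).1.ne_zero, hy⟩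
  -- the field generated by `y`
  have : FiniteDimensional ℚ ℚ⟮y⟯ := adjoin.finiteDimensional hyint
  let y₀ : ℚ⟮y⟯ := AdjoinSimple.gen ℚ y
  have hy₀ : ((y₀ : ℚ⟮y⟯) : ℂ) = y := AdjoinSimple.coe_gen ℚ y
  let z₀ : ℚ⟮y⟯ := aeval y₀ g
  have hz₀ : ((z₀ : ℚ⟮y⟯) : ℂ) = z := by
    have h1 : (ℚ⟮y⟯.val (aeval y₀ g)) = aeval (ℚ⟮y⟯.val y₀) g := (aeval_algHom_apply _ _ _).symm
    have h2 : ((z₀ : ℚ⟮y⟯) : ℂ) = ℚ⟮y⟯.val (aeval y₀ g) := rfl
    rw [h2, h1]
    show aeval ((y₀ : ℚ⟮y⟯) : ℂ) g = z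
    rw [hy₀, hgy]
  have hminz₀ : minpoly ℚ z₀ = minpoly ℚ x := by
    rw [← hzmin, ← hz₀]
    exact (minpoly.algebraMap_eq (algebraMap ℚ⟮y⟯ ℂ).injective z₀).symm
  obtain ⟨φ, hφ⟩ := exists_algHom_of_splits_of_aeval (F := ℚ) (E := ℚ⟮y⟯)
    (K := AlgebraicClosure K) (fun s => ⟨IsIntegral.of_finite ℚ s, IsAlgClosed.splits _⟩)
    (x := z₀) (y := x) (by rw [hminz₀]; exact minpoly.aeval ℚ x)
  set y' : AlgebraicClosure K := φ y₀ with hy'
  have hgy' : aeval y' g = x := by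
    rw [hy', aeval_algHom_apply]
    exact hφ
  have hvan : ∀ D : ℚ[X], aeval y D = 0 → aeval y' D = 0 := by
    intro D hD
    rw [hy', aeval_algHom_apply]
    have h1 : aeval y₀ D = 0 := by
      apply Subtype.ext
      have h1 : (ℚ⟮y⟯.val (aeval y₀ D)) = aeval (ℚ⟮y⟯.val y₀) D := (aeval_algHom_apply _ _ _).symm
      have h2 : ((aeval y₀ D : ℚ⟮y⟯) : ℂ) = ℚ⟮y⟯.val (aeval y₀ D) := rfl
      rw [h2, h1]
      show aeval ((y₀ : ℚ⟮y⟯) : ℂ) D = 0
      rw [hy₀, hD]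
    rw [h1, map_zero]
  have hRy' : aeval y' ((R j).map (algebraMap ℚ K)) = 0 := by
    rw [aeval_map_algebraMap]
    exact hvan _ hy
  have hmin := hloc j y' hRy'
  rw [aeval_map_algebraMap] at hmin
  obtain ⟨σ, hσ⟩ : ∃ σ : AlgebraicClosure K ≃ₐ[K] AlgebraicClosure K, σ y' = aeval y' (S j) := by
    have h1 : IsConjRoot K y' (aeval y' (S j)) := hmin
    rw [isConjRoot_iff_exists_algEquiv] at h1
    obtain ⟨σ, hσ⟩ := h1
    exact ⟨σ.symm, (Equiv.symm_apply_eq σ.toEquiv).2 hσ.symm⟩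
  have hcomm : aeval x Q = σ x := by
    have h1 : aeval y (Q.comp g - g.comp (S j)) = 0 := by
      rw [map_sub, aeval_comp, aeval_comp, hgy, hPQ.2 z hzP, (hRS j).2 y hy, ← hgy]
      have h3 : aeval (starRingEnd ℂ y) g = starRingEnd ℂ (aeval y g) := by
        rw [aeval_def, aeval_def, hom_eval₂]
        congr 1
        exact Subsingleton.elim _ _
      rw [h3, sub_self]
    have h2 := hvan _ h1
    rw [map_sub, aeval_comp, aeval_comp, hgy', sub_eq_zero] at h2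
    rw [h2, ← hσ]
    have h4 : ∀ D : ℚ[X], aeval (σ y') D = σ (aeval y' D) := by
      intro D
      rw [← aeval_map_algebraMap K (σ y') D, ← aeval_map_algebraMap K y' D]
      exact aeval_algHom_apply (σ : AlgebraicClosure K →ₐ[K] AlgebraicClosure K) y' _
    rw [h4, hgy']
  rw [hcomm]
  exact (minpoly.algEquiv_eq σ x).symm

/-- **Many primes.** -/
theorem many_all {n q p : ℕ} (F : AdicFamily.{v} n q p) {P Q P' Q' : ℕ → ℕ → ℚ[X]}
    {J : Type} [Fintype J] {R S : J → ℚ[X]} (hRS : ∀ j, IsConjugationPair (R j) (S j))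
    (hgen : AllGenerated R P Q P' Q') (h : AdicAllGood F P Q P' Q') :
    HasLowerDensity F.katoAll ((1 / 2 : ℝ) ^ pairNumber R) :=
  density_conj hRS p F.K (fun ℓ _ hℓ => F.adic ℓ hℓ) _ fun ℓ _ hℓ hloc =>
    (kato_iff_crit (F.A ℓ)).2 (allCrit_of_good (fun a k => (hgen.1 a k).1.1)
      (fun a k => locallyConjugate_of_generated hRS (hgen.1 a k).1 (hgen.1 a k).2 hloc)
      (fun a k => (hgen.2 a k).1.1)
      (fun a k => locallyConjugate_of_generated hRS (hgen.2 a k).1 (hgen.2 a k).2 hloc) (h ℓ hℓ))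

end Pool.Agent.V7H44.KT
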