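import Pool.Agent.V7H44.KT.Crit

/-!
# The radical of the Lefschetz form on the restrictions
-/

set_option autoImplicit false

namespace Pool.Agent.V7H44.KT

open Module Pool.Agent.Y143 Pool.Agent.Helper60K9.KL Pool.Agent.X302.MW

universe u v

variable {Ω : Type u} [Field Ω] [CharZero Ω] {Γ : Type} {n q : ℕ}

omit [CharZero Ω] in
/-- A linear form vanishing on the radical of a form on a subspace is represented. -/
lemma exists_repr_rad {E : Type*} [AddCommGroup E] [Module Ω E] [FiniteDimensional Ω E]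
    (Q : E →ₗ[Ω] E →ₗ[Ω] Ω) (F : Submodule Ω E) (φ : E →ₗ[Ω] Ω)
    (h : ∀ r ∈ F, (∀ y ∈ F, Q y r = 0) → φ r = 0) : ∃ v ∈ F, ∀ y ∈ F, Q v y = φ y := by
  let T : F →ₗ[Ω] Dual Ω F := F.subtype.dualMap ∘ₗ Q.flip ∘ₗ F.subtype
  have hT : ∀ x y : F, T x y = Q y x := fun x y => rfl
  obtain ⟨φ', hφ'⟩ := exists_factor T (φ ∘ₗ F.subtype) (fun x hx => h x x.2 fun y hy => by
    have := LinearMap.congr_fun hx ⟨y, hy⟩
    exact this)
  obtain ⟨v, hv⟩ := (Module.evalEquiv Ω F).surjective φ'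
  refine ⟨v, v.2, fun y hy => ?_⟩
  have h1 := hφ' ⟨y, hy⟩
  rw [← hv] at h1
  exact h1

section classes

variable {X : SpecialFibre.{u, v} Ω Γ n q}

/-- The radical of the form `B(ρ x, L^s ρ y)` on `H^k(Y^(a+1))` consists of the classes the
restriction of which is a Gysin image of a class with vanishing restriction. -/
def ImCrit (X : SpecialFibre.{u, v} Ω Γ n q) (a k : ℕ) : Prop :=
  ∀ y ∈ X.gr a k, (∀ u ∈ X.gr a k, X.pair (a + 1) (X.res a y)
    ((X.lef (a + 1) ^ (n - (a + 1 + k))) (X.res a u)) = 0) →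
    ∃ w ∈ X.gr (a + 2) ((k : ℤ) - 2), X.res (a + 2) w = 0 ∧ X.res a y = X.gys (a + 1) w

/-- The primitive Gysin images of the components of cocycles vanish. -/
def PrimCrit (X : SpecialFibre.{u, v} Ω Γ n q) (a k : ℕ) : Prop :=
  ∀ h ∈ X.gr (a + 1) k, (∃ t ∈ X.gr (a + 3) ((k : ℤ) - 2),
    X.res (a + 1) h + X.gys (a + 2) t = 0) → (X.lef a ^ (n - (a + 1 + k))) (X.gys a h) = 0 → X.gys a h = 0

lemma imCrit_of_zero {a k : ℕ} (h : ∀ y ∈ X.gr a k, (∀ u ∈ X.gr a k, X.pair (a + 1) (X.res a y)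
    ((X.lef (a + 1) ^ (n - (a + 1 + k))) (X.res a u)) = 0) → X.res a y = 0) : ImCrit X a k := by
  intro y hy ho
  exact ⟨0, Submodule.zero_mem _, map_zero _, by rw [map_zero, h y hy ho]⟩

lemma imCrit_zero (A : DivisorClasses X) (a : ℕ) : ImCrit X a 0 := by
  apply imCrit_of_zero
  intro y hy ho
  rw [Nat.cast_zero] at hy ho
  exact image0 A a hy ho

lemma imCrit_one (A : DivisorClasses X) (a : ℕ) : ImCrit X a 1 := by
  apply imCrit_of_zero
  intro y hy ho
  rw [Nat.cast_one] at hy ho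
  exact A.weil_one a y hy ho

/-- The radical for divisor classes. -/
lemma rad2 (A : DivisorClasses X) (a : ℕ) (hn : a + 3 ≤ n) {y : X.H a}
    (hyA : y ∈ Submodule.span Ω (A.A1 a : Set (X.H a)))
    (hG : ∀ u ∈ X.gr a 2, X.pair (a + 1) (X.res a y)
      ((X.lef (a + 1) ^ (n - (a + 3))) (X.res a u)) = 0) :
    ∃ v ∈ X.gr (a + 2) 0, X.res (a + 2) v = 0 ∧ X.res a y = X.gys (a + 1) v := by
  obtain ⟨d, hd⟩ : ∃ d, n = a + 3 + d := ⟨n - (a + 3), by omega⟩
  rw [show n - (a + 3) = d by omega] at hG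
  -- the form on `H^0` of the next two strata
  let Q1 : X.H (a + 1) →ₗ[Ω] X.H (a + 1) →ₗ[Ω] Ω :=
    (X.pair (a + 1)).compl₂ (X.lef (a + 1) ^ (n - (a + 1)))
  let Q2 : X.H (a + 2) →ₗ[Ω] X.H (a + 2) →ₗ[Ω] Ω :=
    (X.pair (a + 2)).compl₂ (X.lef (a + 2) ^ (n - (a + 2)))
  have hQ1 : ∀ x y, Q1 x y = X.pair (a + 1) x ((X.lef (a + 1) ^ (n - (a + 1))) y) := fun x y => rfl
  have hQ2 : ∀ x y, Q2 x y = X.pair (a + 2) x ((X.lef (a + 2) ^ (n - (a + 2))) y) := fun x y => rfl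
  let F1 : Submodule Ω (X.H (a + 1)) := (X.gr a 0).map (X.res a)
  let F2 : Submodule Ω (X.H (a + 2)) := (X.gr (a + 1) 0).map (X.res (a + 1))
  have hF1 : ∀ x ∈ F1, (∀ y ∈ F1, Q1 x y = 0) → x = 0 := by
    rintro _ ⟨x, hx, rfl⟩ h
    exact image0 A a hx fun u hu => h _ ⟨u, hu, rfl⟩
  have hF2 : ∀ x ∈ F2, (∀ y ∈ F2, Q2 x y = 0) → x = 0 := by
    rintro _ ⟨x, hx, rfl⟩ h
    exact image0 A (a + 1) hx fun u hu => h _ ⟨u, hu, rfl⟩
  -- the functional vanishes on the kernel of the restriction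
  have hker : ∀ k ∈ X.gr (a + 1) 0, X.res (a + 1) k = 0 →
      X.pair (a + 1) (X.res a y) ((X.lef (a + 1) ^ (d + 1)) k) = 0 := by
    intro k hk hRk
    obtain ⟨_, ⟨u0, hu0, rfl⟩, hf⟩ := exists_repr Q1 F1 hF1 (Q1 k)
    set h := k - X.res a u0 with hh
    have hh0 : h ∈ X.gr (a + 1) 0 := Submodule.sub_mem _ hk (X.res_gr a 0 _ hu0)
    have hRh : X.res (a + 1) h = 0 := by rw [hh, map_sub, hRk, X.res_res, sub_zero]
    have hg : X.gys a h = 0 := by
      apply gys_harm A a hh0 hRh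
      intro u hu
      have h1 := hf _ (show X.res a u ∈ F1 from ⟨u, hu, rfl⟩)
      rw [hQ1, hQ1] at h1
      rw [hh, map_sub, LinearMap.sub_apply, h1, sub_self]
    have hk' : k = X.res a u0 + h := by rw [hh]; abel
    have hL : X.pair (a + 1) (X.res a y) ((X.lef (a + 1) ^ (d + 1)) (X.res a u0)) = 0 := by
      have h2 := hG (X.lef a u0) (by simpa using X.lef_gr a 0 _ hu0)
      rw [X.res_lef, ← Module.End.mul_apply, ← pow_succ] at h2
      exact h2
    rw [hk', map_add, map_add, hL,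
      X.pair_res, gys_lef_pow, hg, map_zero, map_zero, add_zero]
  obtain ⟨φ', hφ'⟩ := exists_factor ((X.res (a + 1)).domRestrict (X.gr (a + 1) 0))
    ((X.pair (a + 1) (X.res a y) ∘ₗ (X.lef (a + 1) ^ (d + 1))).domRestrict (X.gr (a + 1) 0))
    (fun k hk => hker k k.2 hk)
  obtain ⟨_, ⟨b0, hb0, rfl⟩, hv⟩ := exists_repr Q2 F2 hF2 φ'
  have hv' : ∀ b ∈ X.gr (a + 1) 0, X.pair (a + 2) (X.res (a + 1) b0)
      ((X.lef (a + 2) ^ (n - (a + 2))) (X.res (a + 1) b)) =
        X.pair (a + 1) (X.res a y) ((X.lef (a + 1) ^ (d + 1)) b) := by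
    intro b hb
    rw [← hQ2, hv _ ⟨b, hb, rfl⟩]
    exact hφ' ⟨b, hb⟩
  refine ⟨X.res (a + 1) b0, X.res_gr (a + 1) 0 _ hb0, X.res_res (a + 1) b0, ?_⟩
  set z := X.res a y - X.gys (a + 1) (X.res (a + 1) b0) with hz
  have hRz : X.res (a + 1) z = 0 := by
    rw [hz, map_sub, X.res_res, zero_sub]
    have := X.res_gys (a + 1) (X.res (a + 1) b0)
    rw [X.res_res, map_zero, add_zero] at this
    rw [this, neg_zero]
  have hD1 : ∀ b ∈ X.gr (a + 1) 0, X.pair (a + 1) z ((X.lef (a + 1) ^ (d + 1)) b) = 0 := by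
    intro b hb
    rw [hz, map_sub, LinearMap.sub_apply, ← hv' b hb, X.pair_gys, res_lef_pow,
      show n - (a + 2) = d + 1 by omega, sub_self]
  have hD2 : ∀ u ∈ X.gr a 2, X.pair (a + 1) z ((X.lef (a + 1) ^ d) (X.res a u)) = 0 := by
    intro u hu
    rw [hz, map_sub, LinearMap.sub_apply, hG u hu, zero_sub, neg_eq_zero, X.pair_gys, res_lef_pow,
      X.res_res, map_zero, map_zero]
  have hD3 : ∀ u, X.pair (a + 1) z ((X.lef (a + 1) ^ d) (X.gys (a + 1) u)) = 0 := by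
    intro u
    rw [← gys_lef_pow, ← X.pair_res, hRz, map_zero, LinearMap.zero_apply]
  -- the rational decomposition
  obtain ⟨k, ω, p, hω, hp, hyb⟩ : ∃ (k : ℕ) (ω : Fin k → Ω) (p : Fin k → X.H a × X.H (a + 1)),
      LinearIndependent ℚ ω ∧ (∀ s, p s ∈ (A.A1 a).prod (A.A0 (a + 1))) ∧
        (y, b0) = ∑ s, ω s • p s := by
    apply exists_indep_decomp
    let S : Submodule Ω (X.H a × X.H (a + 1)) := Submodule.span Ω
      (((A.A1 a).prod (A.A0 (a + 1)) : AddSubgroup (X.H a × X.H (a + 1))) :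
        Set (X.H a × X.H (a + 1)))
    have e1 : Submodule.span Ω (A.A1 a : Set (X.H a)) ≤ S.comap (LinearMap.inl Ω _ _) := by
      rw [Submodule.span_le]
      intro x hx
      exact Submodule.subset_span ⟨hx, zero_mem _⟩
    have e2 : Submodule.span Ω (A.A0 (a + 1) : Set (X.H (a + 1))) ≤
        S.comap (LinearMap.inr Ω _ _) := by
      rw [Submodule.span_le]
      intro x hx
      exact Submodule.subset_span ⟨zero_mem _, hx⟩
    have h1 : ((y, 0) : X.H a × X.H (a + 1)) ∈ S := e1 hyA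
    have h2 : ((0, b0) : X.H a × X.H (a + 1)) ∈ S := e2 (A.span_A0 (a + 1) hb0)
    have := Submodule.add_mem _ h1 h2
    simpa using this
  let T : X.H a × X.H (a + 1) →ₗ[Ω] X.H (a + 1) :=
    (X.res a).coprod (-(X.gys (a + 1) ∘ₗ X.res (a + 1)))
  have hT : ∀ c, T c = X.res a c.1 - X.gys (a + 1) (X.res (a + 1) c.2) := by
    intro c
    show X.res a c.1 + -(X.gys (a + 1) (X.res (a + 1) c.2)) = _
    rw [sub_eq_add_neg]
  have hzT : z = ∑ s, ω s • T (p s) := by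
    have : z = T (y, b0) := by rw [hT]
    rw [this, hyb, map_sum]
    apply Finset.sum_congr rfl
    intro s _
    rw [map_smul]
  have hTA : ∀ s, T (p s) ∈ A.A1 (a + 1) := by
    intro s
    rw [hT]
    exact sub_mem (A.res_A1 a _ (hp s).1) (A.gys_A0 (a + 1) _ (A.res_A0 (a + 1) _ (hp s).2))
  have hdesc : ∀ u ∈ A.A1 (a + 1), X.pair (a + 1) z ((X.lef (a + 1) ^ d) u) = 0 →
      ∀ s, X.pair (a + 1) (T (p s)) ((X.lef (a + 1) ^ d) u) = 0 := by
    intro u hu h s
    refine eq_zero_of_int hω (fun s => X.pair (a + 1) (T (p s)) ((X.lef (a + 1) ^ d) u))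
      (fun s => ?_) ?_ s
    · have := A.int1 (a + 1) _ (hTA s) u hu
      rwa [show n - (a + 1) - 2 = d by omega] at this
    · rw [hzT, map_sum, LinearMap.sum_apply] at h
      rw [← h]
      apply Finset.sum_congr rfl
      intro s _
      rw [map_smul, LinearMap.smul_apply, smul_eq_mul]
  have hzero : ∀ s, T (p s) = 0 := by
    intro s
    by_contra hne
    have hprim : (X.lef (a + 1) ^ (n - (a + 1) - 1)) (T (p s)) = 0 := by
      apply eq_zero_of_orth X (a + 1) (lef_pow_gr X (a + 1) _ (A.A1_le (a + 1) _ (hTA s)))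
      intro b hb
      have hb0 : b ∈ X.gr (a + 1) 0 := by
        rwa [show 2 * ((n : ℤ) - ((a + 1 : ℕ) : ℤ)) - (2 + 2 * ((n - (a + 1) - 1 : ℕ) : ℤ)) = 0 by
          omega] at hb
      have hf : X.gr (a + 1) 0 ≤ LinearMap.ker ((X.pair (a + 1) (T (p s))) ∘ₗ
          (X.lef (a + 1) ^ (d + 1))) := by
        refine (A.span_A0 (a + 1)).trans (Submodule.span_le.2 fun u hu => ?_)
        show X.pair (a + 1) (T (p s)) ((X.lef (a + 1) ^ (d + 1)) u) = 0
        have h1 := hD1 u (A.A0_le (a + 1) u hu)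
        rw [pow_succ, Module.End.mul_apply] at h1 ⊢
        exact hdesc _ (A.lef_A0 (a + 1) u hu) h1 s
      have h5 : X.pair (a + 1) (T (p s)) ((X.lef (a + 1) ^ (d + 1)) b) = 0 := hf hb0
      rw [lef_pow_pair, show n - (a + 1) - 1 = d + 1 by omega, h5]
    obtain ⟨m, hm, hm'⟩ := A.hodge_index (a + 1) _ (hTA s) hprim hne
    have h4 : X.pair (a + 1) (T (p s)) ((X.lef (a + 1) ^ (n - (a + 1) - 2)) (T (p s))) = 0 := by
      rw [show n - (a + 1) - 2 = d by omega]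
      have g1 := hdesc _ (A.res_A1 a _ (hp s).1) (hD2 _ (A.A1_le a _ (hp s).1)) s
      have g2 := hdesc _ (A.gys_A0 (a + 1) _ (A.res_A0 (a + 1) _ (hp s).2)) (hD3 _) s
      have g3 : X.pair (a + 1) (T (p s)) ((X.lef (a + 1) ^ d)
          (X.res a (p s).1 - X.gys (a + 1) (X.res (a + 1) (p s).2))) = 0 := by
        rw [map_sub, map_sub, g1, g2, sub_zero]
      rw [← hT (p s)] at g3
      exact g3
    rw [h4] at hm'
    have h3 : (m : Ω) = 0 := hm'.symm
    rw [Int.cast_eq_zero] at h3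
    omega
  have hz0 : z = 0 := by
    rw [hzT]
    apply Finset.sum_eq_zero
    intro s _
    rw [hzero, smul_zero]
  rwa [hz, sub_eq_zero] at hz0

/-- The radical for `H^2` spanned by divisor classes and transcendental classes. -/
lemma imCrit_two (A : DivisorClasses X) (a : ℕ) (hn : a + 3 ≤ n) (h : TransNondeg A a) :
    ImCrit X a 2 := by
  obtain ⟨T, hT2, hT, ho, hn'⟩ := h
  have hs : n - (a + 1 + 2) = n - a - 3 := by omega
  intro y hy hG
  rw [Nat.cast_ofNat] at hy hG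
  rw [hs] at hG
  have ho' : ∀ t ∈ T, ∀ d ∈ Submodule.span Ω (A.A1 a : Set (X.H a)),
      X.pair (a + 1) (X.res a t) ((X.lef (a + 1) ^ (n - a - 3)) (X.res a d)) = 0 := by
    intro t ht d hd
    have hle : Submodule.span Ω (A.A1 a : Set (X.H a)) ≤
        LinearMap.ker ((X.pair (a + 1) (X.res a t)) ∘ₗ
          (X.lef (a + 1) ^ (n - a - 3)) ∘ₗ X.res a) :=
      Submodule.span_le.2 fun u hu => ho t ht u hu
    exact hle hd
  obtain ⟨d, hd, t, ht, rfl⟩ := Submodule.mem_sup.1 (hT hy)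
  have hd2 : d ∈ X.gr a 2 := by
    have hle : Submodule.span Ω (A.A1 a : Set (X.H a)) ≤ X.gr a 2 :=
      Submodule.span_le.2 fun u hu => A.A1_le a u hu
    exact hle hd
  have ht0 : X.res a t = 0 := by
    apply hn' t ht
    intro t' ht'
    show X.pair (a + 1) (X.res a t) ((X.lef (a + 1) ^ (n - a - 3)) (X.res a t')) = 0
    have e1 := hG t' (hT2 ht')
    have e2 : X.pair (a + 1) (X.res a d)
        ((X.lef (a + 1) ^ (n - a - 3)) (X.res a t')) = 0 := by
      rw [← lef_pow_pair, X.pair_symm (a + 1) 2 _ _ (X.res_gr a 2 _ (hT2 ht')),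
        ho' t' ht' d hd, mul_zero]
    rw [map_add, map_add, LinearMap.add_apply, e2, zero_add] at e1
    exact e1
  rw [map_add, ht0, add_zero] at hG ⊢
  have hG' : ∀ u ∈ X.gr a 2, X.pair (a + 1) (X.res a d)
      ((X.lef (a + 1) ^ (n - (a + 3))) (X.res a u)) = 0 := by
    intro u hu
    rw [show n - (a + 3) = n - a - 3 by omega]
    exact hG u hu
  obtain ⟨v, hv, h1, h2⟩ := rad2 A a hn hd hG'
  exact ⟨v, by simpa using hv, h1, h2⟩

end classes

end Pool.Agent.V7H44.KT
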