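import Pool.Agent.V7H44.KT.Rad

/-!
# The criteria from simple spectrum
-/

set_option autoImplicit false

namespace Pool.Agent.V7H44.KT

open Module Polynomial Pool.Agent.Y143 Pool.Agent.Helper60K9.KL Pool.Agent.X302.MW
  Pool.Agent.Helper8K9.AV Pool.Agent.Helper8K9.KD

universe u v

variable {Ω : Type u} [Field Ω] [CharZero Ω] {Γ : Type} {n q : ℕ}

/-- The class of a Gysin image of a class with vanishing restriction is a coboundary. -/
lemma single_mem_cobK (X : SpecialFibre.{u, v} Ω Γ n q) (a k : ℕ) {v : X.H (a + 2)}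
    (hv : v ∈ X.gr (a + 2) ((k : ℤ) - 2)) (hR : X.res (a + 2) v = 0) :
    (Pi.single (a + 1) (X.gys (a + 1) v) : X.C) ∈
      X.coboundaries (-((a : ℤ) + 1)) ((k : ℤ) + 2 * ((a : ℤ) + 1)) := by
  classical
  refine ⟨Pi.single (a + 2) v, ?_, ?_⟩
  · apply X.single_mem
    · refine ⟨?_, ?_⟩
      · rw [show -((a : ℤ) + 1) - 1 = -((a : ℤ) + 2) by ring, abs_neg,
          abs_of_nonneg (by positivity)]
        push_cast
        rfl
      · refine ⟨(a : ℤ) + 2, by push_cast; ring⟩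
    · rwa [show (k : ℤ) + 2 * ((a : ℤ) + 1) + (-((a : ℤ) + 1) - 1) - ((a + 2 : ℕ) : ℤ) = k - 2 by
        push_cast; ring]
  · funext b
    rw [X.diff_apply, show -((a : ℤ) + 1) - 1 + 1 = -((a : ℤ) + 1) by ring, X.cut_neg]
    by_cases hc : InColumn ((a : ℤ) + 1) b
    · rw [X.cut_of hc, Pi.add_apply, X.gysC_apply]
      have hab : a + 1 ≤ b := by
        have := hc.1
        rw [abs_of_nonneg (by positivity)] at this
        exact_mod_cast this
      obtain ⟨b', rfl⟩ : ∃ b', b = b' + 1 := ⟨b - 1, by omega⟩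
      rw [X.resC_succ]
      by_cases hb : b' = a
      · subst hb
        rw [Pi.single_eq_of_ne (by omega), map_zero, zero_add, Pi.single_eq_same,
          Pi.single_eq_same]
      · by_cases hb2 : b' = a + 2
        · subst hb2
          rw [Pi.single_eq_same, hR, zero_add, Pi.single_eq_of_ne (by omega), map_zero,
            Pi.single_eq_of_ne (by omega)]
        · rw [Pi.single_eq_of_ne hb2, map_zero, zero_add, Pi.single_eq_of_ne (by omega), map_zero,
            Pi.single_eq_of_ne (by omega)]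
    · rw [X.cut_of_not hc, Pi.single_eq_of_ne]
      rintro rfl
      exact hc (inCol_succ_self a)

lemma injCrit_of_im {X : SpecialFibre.{u, v} Ω Γ n q} {a k : ℕ} (h : ImCrit X a k) :
    InjCrit X a k := by
  intro y hy hG
  obtain ⟨w, hw, hR, hy2⟩ := h y hy fun u _ => by
    rw [← res_lef_pow, ← X.pair_gys, hG, map_zero, LinearMap.zero_apply]
  show (Pi.single (a + 1) (X.res a y) : X.C) ∈
    X.coboundaries (-((a : ℤ) + 1)) ((k : ℤ) + 2 * (a + 1))
  rw [hy2]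
  exact single_mem_cobK X a k hw hR

/-- A class orthogonal to the restrictions has a primitive Gysin image. -/
lemma lef_gys_zero (X : SpecialFibre.{u, v} Ω Γ n q) (a k : ℕ) (hn : a + 1 + k ≤ n)
    {h : X.H (a + 1)} (hh : h ∈ X.gr (a + 1) k)
    (ho : ∀ u ∈ X.gr a k, X.pair (a + 1) h ((X.lef (a + 1) ^ (n - (a + 1 + k))) (X.res a u)) = 0) :
    (X.lef a ^ (n - (a + 1 + k))) (X.gys a h) = 0 := by
  apply eq_zero_of_orth X a (lef_pow_gr X a _ (X.gys_gr a k h hh))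
  intro b hb
  have hb1 : b ∈ X.gr a k := by
    rwa [show 2 * ((n : ℤ) - a) - ((k : ℤ) + 2 + 2 * ((n - (a + 1 + k) : ℕ) : ℤ)) = k by omega] at hb
  rw [lef_pow_pair, X.pair_gys, res_lef_pow]
  exact ho b hb1

lemma surjCrit_of {X : SpecialFibre.{u, v} Ω Γ n q} {a k : ℕ} (hn : a + 1 + k ≤ n)
    (hI : ImCrit X a k) (hP : PrimCrit X a k) : SurjCrit X a k := by
  intro z hz
  have hzE : z ∈ X.E₁ ((a : ℤ) + 1) k := hz.1
  have hz0 : z (a + 1) ∈ X.gr (a + 1) k := by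
    have := (hzE (a + 1)).1
    rwa [show (k : ℤ) + ((a : ℤ) + 1) - ((a + 1 : ℕ) : ℤ) = k by push_cast; ring] at this
  have hzR : X.res (a + 1) (z (a + 1)) + X.gys (a + 2) (z (a + 3)) = 0 := by
    have h1 : X.diff ((a : ℤ) + 1) z = 0 := hz.2
    have h2 := congrFun h1 (a + 2)
    rw [X.diff_apply, X.cut_of, Pi.add_apply, X.gysC_apply, X.resC_succ] at h2
    · exact h2
    · refine ⟨?_, ⟨0, by push_cast; ring⟩⟩
      rw [abs_of_nonneg (by positivity)]
      push_cast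
      linarith
  let Q : X.H (a + 1) →ₗ[Ω] X.H (a + 1) →ₗ[Ω] Ω :=
    (X.pair (a + 1)).compl₂ (X.lef (a + 1) ^ (n - (a + 1 + k)))
  have hQ : ∀ x y, Q x y = X.pair (a + 1) x ((X.lef (a + 1) ^ (n - (a + 1 + k))) y) :=
    fun x y => rfl
  let F : Submodule Ω (X.H (a + 1)) := (X.gr a k).map (X.res a)
  have hfin : FiniteDimensional Ω (X.H (a + 1)) := (X.duality (a + 1)).1.finite
  have hrad : ∀ r ∈ F, (∀ y ∈ F, Q y r = 0) → Q (z (a + 1)) r = 0 := by
    rintro _ ⟨y, hy, rfl⟩ h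
    have hy' : ∀ u ∈ X.gr a k, X.pair (a + 1) (X.res a y)
        ((X.lef (a + 1) ^ (n - (a + 1 + k))) (X.res a u)) = 0 := by
      intro u hu
      have h1 := h _ ⟨u, hu, rfl⟩
      rw [hQ] at h1
      rw [← lef_pow_pair, X.pair_symm (a + 1) k _ _ (X.res_gr a k _ hu), h1, mul_zero]
    obtain ⟨w, hw, hR, hyw⟩ := hI y hy hy'
    rw [hQ, hyw, ← gys_lef_pow, ← X.pair_res, eq_neg_of_add_eq_zero_left hzR, map_neg,
      LinearMap.neg_apply, X.pair_gys, res_lef_pow, hR, map_zero, map_zero, neg_zero]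
  obtain ⟨_, ⟨x, hx, rfl⟩, hf⟩ := exists_repr_rad Q F (Q (z (a + 1))) hrad
  refine ⟨x, hx, ?_⟩
  set h := z (a + 1) - X.res a x with hdef
  have hh : h ∈ X.gr (a + 1) k := Submodule.sub_mem _ hz0 (X.res_gr a k _ hx)
  have ho : ∀ u ∈ X.gr a k,
      X.pair (a + 1) h ((X.lef (a + 1) ^ (n - (a + 1 + k))) (X.res a u)) = 0 := by
    intro u hu
    have h1 := hf _ (show X.res a u ∈ F from ⟨u, hu, rfl⟩)
    rw [hQ, hQ] at h1
    rw [hdef, map_sub, LinearMap.sub_apply, h1, sub_self]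
  have ht : z (a + 3) ∈ X.gr (a + 3) ((k : ℤ) - 2) := by
    have := (hzE (a + 3)).1
    rwa [show (k : ℤ) + ((a : ℤ) + 1) - ((a + 3 : ℕ) : ℤ) = k - 2 by push_cast; ring] at this
  have h0 := hP h hh ⟨z (a + 3), ht, by rw [hdef, map_sub, X.res_res, sub_zero, hzR]⟩
    (lef_gys_zero X a k hn hh ho)
  rwa [hdef, map_sub, sub_eq_zero] at h0

section simple

variable {X : SpecialFibre.{u, v} Ω Γ n q}

/-- restrictions with simple spectrum -/
lemma imCrit_of_simple {a k : ℕ} {P Q : ℚ[X]} (hP : Squarefree P) (hloc : LocallyConjugate Ω P Q)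
    (h : ResSimple X a k P Q) : ImCrit X a k := by
  obtain ⟨U, hU, hnd, e, headj, ⟨_, he, hch⟩, hadj⟩ := h
  apply imCrit_of_zero
  intro y hy ho
  have hfin : FiniteDimensional Ω (X.H (a + 1)) := (X.duality (a + 1)).1.finite
  set s := n - (a + 1 + k) with hs
  -- the radical
  let S : Submodule Ω (X.H (a + 1)) :=
    { carrier := {z | (∃ y ∈ X.gr a k, X.res a y = z) ∧
        ∀ t' ∈ X.gr a k, X.pair (a + 1) z ((X.lef (a + 1) ^ s) (X.res a t')) = 0}
      add_mem' := by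
        rintro _ _ ⟨⟨y, hy, rfl⟩, h1⟩ ⟨⟨z, hz, rfl⟩, h2⟩
        refine ⟨⟨y + z, Submodule.add_mem _ hy hz, map_add _ _ _⟩, fun t' ht' => ?_⟩
        rw [map_add, LinearMap.add_apply, h1 t' ht', h2 t' ht', add_zero]
      zero_mem' := ⟨⟨0, Submodule.zero_mem _, map_zero _⟩, fun t' _ => by
        rw [map_zero, LinearMap.zero_apply]⟩
      smul_mem' := by
        rintro c _ ⟨⟨y, hy, rfl⟩, h1⟩
        refine ⟨⟨c • y, Submodule.smul_mem _ c hy, map_smul _ _ _⟩, fun t' ht' => ?_⟩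
        rw [map_smul, LinearMap.smul_apply, h1 t' ht', smul_zero] }
  have hS : ∀ g, ∀ x ∈ S, X.act (a + 1) g x ∈ S := by
    rintro g _ ⟨⟨y, hy, rfl⟩, h1⟩
    refine ⟨⟨X.act a g y, X.act_gr a _ g y hy, (X.res_act a g y).symm⟩, fun t' ht' => ?_⟩
    have h2 : ∀ (s : ℕ) (x : X.H (a + 1)), ∃ c : Ω, X.act (a + 1) (X.tr g) ((X.lef (a + 1) ^ s) x) =
        c • (X.lef (a + 1) ^ s) (X.act (a + 1) (X.tr g) x) := by
      intro s
      induction s with
      | zero => intro x; exact ⟨1, by rw [one_smul]; rfl⟩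
      | succ s ih =>
        intro x
        obtain ⟨c, hc⟩ := ih (X.lef (a + 1) x)
        refine ⟨c * (X.cyc (X.tr g) : Ω), ?_⟩
        rw [pow_succ, Module.End.mul_apply, hc, Module.End.mul_apply, X.lef_act, map_smul,
          smul_smul]
    obtain ⟨c, hc⟩ := h2 s (X.res a t')
    rw [X.act_pair, hc, map_smul, X.res_act, h1 _ (X.act_gr a _ _ _ ht'), smul_zero, mul_zero]
  have hSU : S ≤ U := by
    rintro _ ⟨⟨y, hy, rfl⟩, -⟩
    exact hU y hy
  have hmem : X.res a y ∈ S := ⟨⟨y, hy, rfl⟩, ho⟩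
  by_contra hne
  have hS0 : S ≠ ⊥ := fun h => hne (by rwa [h, Submodule.mem_bot] at hmem)
  obtain ⟨x, hx, _, ⟨⟨y, hy, rfl⟩, -⟩, hxy⟩ := pairs_of_simple (B := lowForm X a k) hP hloc hnd e he
    hch hadj hSU hS0 (stable_adjoin _ S hS headj)
  exact hxy (hx.2 y hy)

/-- transcendental classes with simple spectrum -/
lemma transNondeg_of_simpleL {A : DivisorClasses X} {a : ℕ} {P Q : ℚ[X]}
    (hP : Squarefree P) (hloc : LocallyConjugate Ω P Q) (h : TransSimpleL A a P Q) :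
    TransNondeg A a := by
  obtain ⟨T, U, hT2, hspan, hT, hTU, hort, hnd, e, headj, ⟨_, he, hch⟩, hadj⟩ := h
  have hs : n - (a + 1 + 2) = n - a - 3 := by omega
  have hlow : lowForm X a 2 = formL X (a + 1) (n - a - 3) := by rw [lowForm, hs]
  rw [hlow] at hort
  rw [hlow] at hnd hadj
  refine ⟨T, hT2, hspan, hort, fun t ht h1 => ?_⟩
  have hfin : FiniteDimensional Ω (X.H (a + 1)) := (X.duality (a + 1)).1.finite
  set s := n - a - 3
  have hform : ∀ x y, ev (formL X (a + 1) s) x y =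
    X.pair (a + 1) x ((X.lef (a + 1) ^ s) y) := fun x y => rfl
  let S : Submodule Ω (X.H (a + 1)) :=
    { carrier := {z | (∃ y ∈ T, X.res a y = z) ∧
        ∀ t' ∈ T, X.pair (a + 1) z ((X.lef (a + 1) ^ s) (X.res a t')) = 0}
      add_mem' := by
        rintro _ _ ⟨⟨y, hy, rfl⟩, h1⟩ ⟨⟨z, hz, rfl⟩, h2⟩
        refine ⟨⟨y + z, Submodule.add_mem _ hy hz, map_add _ _ _⟩, fun t' ht' => ?_⟩
        rw [map_add, LinearMap.add_apply, h1 t' ht', h2 t' ht', add_zero]
      zero_mem' := ⟨⟨0, Submodule.zero_mem _, map_zero _⟩, fun t' _ => by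
        rw [map_zero, LinearMap.zero_apply]⟩
      smul_mem' := by
        rintro c _ ⟨⟨y, hy, rfl⟩, h1⟩
        refine ⟨⟨c • y, Submodule.smul_mem _ c hy, map_smul _ _ _⟩, fun t' ht' => ?_⟩
        rw [map_smul, LinearMap.smul_apply, h1 t' ht', smul_zero] }
  have hS : ∀ g, ∀ x ∈ S, X.act (a + 1) g x ∈ S := by
    rintro g _ ⟨⟨y, hy, rfl⟩, h1⟩
    refine ⟨⟨X.act a g y, hT _ ⟨g, rfl⟩ y hy, (X.res_act a g y).symm⟩, fun t' ht' => ?_⟩
    have h2 : ∀ (s : ℕ) (x : X.H (a + 1)), ∃ c : Ω, X.act (a + 1) (X.tr g) ((X.lef (a + 1) ^ s) x) =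
        c • (X.lef (a + 1) ^ s) (X.act (a + 1) (X.tr g) x) := by
      intro s
      induction s with
      | zero => intro x; exact ⟨1, by rw [one_smul]; rfl⟩
      | succ s ih =>
        intro x
        obtain ⟨c, hc⟩ := ih (X.lef (a + 1) x)
        refine ⟨c * (X.cyc (X.tr g) : Ω), ?_⟩
        rw [pow_succ, Module.End.mul_apply, hc, Module.End.mul_apply, X.lef_act, map_smul,
          smul_smul]
    obtain ⟨c, hc⟩ := h2 s (X.res a t')
    rw [X.act_pair, hc, map_smul, X.res_act, h1 _ (hT _ ⟨_, rfl⟩ _ ht'), smul_zero, mul_zero]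
  have hSU : S ≤ U := by
    rintro _ ⟨⟨y, hy, rfl⟩, -⟩
    exact hTU y hy
  have hmem : X.res a t ∈ S := ⟨⟨t, ht, rfl⟩, fun t' ht' => h1 t' ht'⟩
  by_contra hne
  have hS0 : S ≠ ⊥ := fun h => hne (by rwa [h, Submodule.mem_bot] at hmem)
  obtain ⟨x, hx, _, ⟨⟨y, hy, rfl⟩, -⟩, hxy⟩ := pairs_of_simple (B := formL X (a + 1) s) hP hloc hnd e
    he hch hadj hSU hS0 (stable_adjoin _ S hS headj)
  exact hxy (hx.2 y hy)

lemma imCrit_of_good {A : DivisorClasses X} {a k : ℕ} (hn : a + 1 + k ≤ n) {P Q : ℚ[X]}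
    (hP : Squarefree P) (hloc : LocallyConjugate Ω P Q) (h : ResGood A a k P Q) : ImCrit X a k := by
  rcases h with h | ⟨rfl, h | h⟩
  · exact imCrit_of_simple hP hloc h
  · exact imCrit_two A a (by omega) h
  · exact imCrit_two A a (by omega) (transNondeg_of_simpleL hP hloc h)

/-- primitive Gysin images with simple spectrum -/
lemma primCrit_of_simple {a k : ℕ} (hn : a + 2 + k ≤ n) {P Q : ℚ[X]} (hP : Squarefree P)
    (hloc : LocallyConjugate Ω P Q) (h : GysSimpleK X a k P Q) : PrimCrit X a k := by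
  obtain ⟨U, hU, hnd, e, headj, ⟨_, he, hch⟩, hadj⟩ := h
  rintro h0 hh ⟨t0, -, hR⟩ hL
  have hfin : FiniteDimensional Ω (X.H a) := (X.duality a).1.finite
  obtain ⟨s, hs⟩ : ∃ s, n = a + 2 + k + s := ⟨n - (a + 2 + k), by omega⟩
  have hs1 : n - (a + 1 + k) = s + 1 := by omega
  have hs2 : n - (a + 2 + k) = s := by omega
  have hpg : primGysK X a k = X.gr (a + 1) k ⊓ (LinearMap.ker (X.lef a ^ (s + 1))).comap (X.gys a) :=
    by rw [primGysK, hs1]
  rw [hpg] at hU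
  rw [hs1] at hL
  have hhf : highForm X a k = formL X a s := by rw [highForm, hs2]
  rw [hhf] at hnd hadj
  -- the images
  let S : Submodule Ω (X.H a) :=
    { carrier := {z | ∃ h1 ∈ X.gr (a + 1) k, (∃ t : X.H (a + 3), X.res (a + 1) h1 +
        X.gys (a + 2) t = 0) ∧ (X.lef a ^ (s + 1)) (X.gys a h1) = 0 ∧ X.gys a h1 = z}
      add_mem' := by
        rintro _ _ ⟨y, hy, ⟨t, ht⟩, hy2, rfl⟩ ⟨z, hz, ⟨t', ht'⟩, hz2, rfl⟩
        refine ⟨y + z, Submodule.add_mem _ hy hz, ⟨t + t', ?_⟩, ?_, map_add _ _ _⟩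
        · rw [map_add, map_add, add_add_add_comm, ht, ht', add_zero]
        · rw [map_add, map_add, hy2, hz2, add_zero]
      zero_mem' := ⟨0, Submodule.zero_mem _, ⟨0, by rw [map_zero, map_zero, add_zero]⟩,
        by rw [map_zero, map_zero], map_zero _⟩
      smul_mem' := by
        rintro c _ ⟨y, hy, ⟨t, ht⟩, hy2, rfl⟩
        refine ⟨c • y, Submodule.smul_mem _ c hy, ⟨c • t, ?_⟩, ?_, map_smul _ _ _⟩
        · rw [map_smul, map_smul, ← smul_add, ht, smul_zero]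
        · rw [map_smul, map_smul, hy2, smul_zero] }
  have hSU : S ≤ U := by
    rintro _ ⟨y, hy, -, hy2, rfl⟩
    exact hU y ⟨hy, hy2⟩
  have hact : ∀ (g : Γ) (r : ℕ) (x : X.H a), ∃ c : Ω, (X.lef a ^ r) (X.act a g x) =
      c • X.act a g ((X.lef a ^ r) x) := by
    intro g r
    induction r with
    | zero => intro x; exact ⟨1, by rw [one_smul]; rfl⟩
    | succ r ih =>
      intro x
      obtain ⟨c, hc⟩ := ih x
      refine ⟨c * (X.cyc g : Ω)⁻¹, ?_⟩
      rw [pow_succ', Module.End.mul_apply, hc, map_smul, Module.End.mul_apply, X.lef_act, smul_smul,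
        inv_mul_cancel_right₀ (Units.ne_zero _)]
  have hS : ∀ g, ∀ x ∈ S, X.act a g x ∈ S := by
    rintro g _ ⟨y, hy, ⟨t, ht⟩, hy2, rfl⟩
    refine ⟨(X.cyc g : Ω) • X.act (a + 1) g y, Submodule.smul_mem _ _ (X.act_gr (a + 1) k g y hy),
      ⟨(X.cyc g : Ω) • (X.cyc g : Ω) • X.act (a + 3) g t, ?_⟩, ?_, ?_⟩
    · rw [map_smul, ← X.res_act, map_smul, map_smul, ← X.gys_act, ← smul_add, ← map_add, ht,
        map_zero, smul_zero]
    · rw [map_smul, ← X.gys_act]
      obtain ⟨c, hc⟩ := hact g (s + 1) (X.gys a y)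
      rw [hc, hy2, map_zero, smul_zero]
    · rw [map_smul, ← X.gys_act]
  have hmem : X.gys a h0 ∈ S := ⟨h0, hh, ⟨t0, hR⟩, hL, rfl⟩
  by_contra hne
  have hS0 : S ≠ ⊥ := fun h => hne (by rwa [h, Submodule.mem_bot] at hmem)
  obtain ⟨x, ⟨y, hy, hy1, hy2, rfl⟩, _, ⟨z, hz, ⟨t, ht⟩, hz2, rfl⟩, hxy⟩ := pairs_of_simple
    (B := formL X a s) hP hloc hnd e he hch hadj hSU hS0 (stable_adjoin _ S hS headj)
  apply hxy
  show X.pair a (X.gys a y) ((X.lef a ^ s) (X.gys a z)) = 0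
  have e5 := X.res_gys a z
  have e6 : X.gys (a + 1) (X.res (a + 1) z) = 0 := by
    rw [eq_neg_of_add_eq_zero_left ht, map_neg, X.gys_gys, neg_zero]
  rw [e6, add_zero] at e5
  rw [X.pair_gys, res_lef_pow, e5, map_zero, map_zero]

lemma primCrit_one {a : ℕ} (h : PrimGysin X a) : PrimCrit X a 1 := by
  rintro x hx ⟨t, ht, hR⟩ hL
  rw [Nat.cast_one] at hx ht
  rw [X.gr_eq_bot (a + 3) (1 - 2) (Or.inl (by norm_num)), Submodule.mem_bot] at ht
  rw [ht, map_zero, add_zero] at hR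
  refine h x hx hR ?_
  show (X.lef a ^ (n - a - 2)) (X.gys a x) = 0
  rwa [show n - (a + 1 + 1) = n - a - 2 by omega] at hL

lemma primCrit_of_good {a k : ℕ} (hn : a + 2 + k ≤ n) {P Q : ℚ[X]} (hP : Squarefree P)
    (hloc : LocallyConjugate Ω P Q) (h : GysGood X a k P Q) : PrimCrit X a k := by
  rcases h with h | ⟨rfl, h⟩
  · exact primCrit_of_simple hn hP hloc h
  · exact primCrit_one (primGysin_of_no h)

end simple

/-- **One prime.** -/
theorem allCrit_of_good {X : SpecialFibre.{u, v} Ω Γ n q} {A : DivisorClasses X}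
    {P Q P' Q' : ℕ → ℕ → ℚ[X]} (hP : ∀ a k, Squarefree (P a k))
    (hloc : ∀ a k, LocallyConjugate Ω (P a k) (Q a k)) (hP' : ∀ a k, Squarefree (P' a k))
    (hloc' : ∀ a k, LocallyConjugate Ω (P' a k) (Q' a k)) (h : AllGood A P Q P' Q') :
    AllCrit X := by
  have hI : ∀ a k : ℕ, 2 ≤ k → a + 1 + k ≤ n → ImCrit X a k := fun a k hk hn =>
    imCrit_of_good hn (hP a k) (hloc a k) (h.1 a k hk hn)
  refine ⟨fun a k hk hn => injCrit_of_im (hI a k hk hn), fun a k hk hn => ?_⟩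
  refine surjCrit_of (by omega) ?_ (primCrit_of_good hn (hP' a k) (hloc' a k) (h.2 a k hk hn))
  rcases (show k = 1 ∨ 2 ≤ k by omega) with rfl | hk2
  · exact imCrit_one A a
  · exact hI a k hk2 (by omega)

end Pool.Agent.V7H44.KT
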